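import Mathlib

set_option autoImplicit false

/-!
# Gabor systems whose window is a multi-tile

For `Ω = [0, k) × [0, 1)^(d-1)` and `Λ = ℤ^d` the translates of the indicator function along the
first coordinate satisfy a telescoping identity, so that no system
`{e^(2πi γ·x) χ_Ω(x - λ)}` is a Riesz basis.
-/

namespace Pool.Agent.Results.MP_9d6809_an.NoRieszBasis

open MeasureTheory Complex Set

noncomputable section

variable {d : ℕ}

/-- A full rank lattice: the image of `ℤ^d` under a nonsingular matrix. -/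
def IsFullRankLattice (Λ : Set (Fin d → ℝ)) : Prop :=
  ∃ M : Matrix (Fin d) (Fin d) ℝ, M.det ≠ 0 ∧
    Λ = {x | ∃ n : Fin d → ℤ, x = M.mulVec (fun i => (n i : ℝ))}

/-- `Ω` multi-tiles by `Λ` at level `k`: almost every `x` is in `Ω + λ` for exactly `k` elements
`λ` of `Λ`. -/
def MultiTiles (Ω Λ : Set (Fin d → ℝ)) (k : ℕ) : Prop :=
  ∀ᵐ x : Fin d → ℝ, {l ∈ Λ | x - l ∈ Ω}.encard = k

/-- The Gabor system `e^(2πi γ·x) g(x - λ)`, `(λ, γ) ∈ Λ × Γ`. -/
def gabor (g : (Fin d → ℝ) → ℂ) (Λ Γ : Set (Fin d → ℝ)) (p : Λ × Γ) (x : Fin d → ℝ) : ℂ :=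
  Complex.exp (2 * Real.pi * Complex.I * ((p.2.1 ⬝ᵥ x : ℝ) : ℂ)) * g (x - p.1.1)

/-- The family `φ` is a Riesz basis of the Hilbert space `H`: the image of an orthonormal basis
under a bounded invertible operator. -/
def IsRieszBasis {I H : Type} [NormedAddCommGroup H] [InnerProductSpace ℂ H] (φ : I → H) : Prop :=
  ∃ (b : HilbertBasis I ℂ H) (T : H ≃L[ℂ] H), ∀ i, T (b i) = φ i

/-- The Gabor system is a Riesz basis of `L²(ℝ^d)`: the family of the classes of its members is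
one. -/
def IsGaborRieszBasis (g : (Fin d → ℝ) → ℂ) (Λ Γ : Set (Fin d → ℝ)) : Prop :=
  ∃ φ : Λ × Γ → Lp ℂ 2 (volume : Measure (Fin d → ℝ)),
    (∀ p, ⇑(φ p) =ᵐ[volume] gabor g Λ Γ p) ∧ IsRieszBasis φ

/-- The set `[a, b) × [0, 1)^(d-1)`. -/
def slab (i₀ : Fin d) (a b : ℝ) : Set (Fin d → ℝ) :=
  {x | (a ≤ x i₀ ∧ x i₀ < b) ∧ ∀ i, i ≠ i₀ → 0 ≤ x i ∧ x i < 1}

theorem slab_eq (i₀ : Fin d) (a b : ℝ) : slab i₀ a b =
    Set.univ.pi (fun i => Ico (if i = i₀ then a else 0) (if i = i₀ then b else 1)) := by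
  ext x
  simp only [slab, Set.mem_ofPred_eq, Set.mem_pi, Set.mem_univ, true_implies, Set.mem_Ico]
  constructor
  · rintro ⟨h1, h2⟩ i
    by_cases hi : i = i₀
    · subst hi
      simpa using h1
    · simpa [hi] using h2 i hi
  · intro h
    refine ⟨by simpa using h i₀, fun i hi => by simpa [hi] using h i⟩

theorem measurableSet_slab (i₀ : Fin d) (a b : ℝ) : MeasurableSet (slab i₀ a b) := by
  rw [slab_eq]
  exact MeasurableSet.univ_pi fun i => measurableSet_Ico

theorem volume_slab (i₀ : Fin d) (a b : ℝ) : volume (slab i₀ a b) = ENNReal.ofReal (b - a) := by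
  rw [slab_eq, Real.volume_pi_Ico, Finset.prod_eq_single i₀]
  · simp
  · intro i _ hi
    simp [hi]
  · intro h
    exact absurd (Finset.mem_univ _) h

/-- the vector `s e₀` -/
def vec (i₀ : Fin d) (s : ℕ) : Fin d → ℝ := fun i => if i = i₀ then (s : ℝ) else 0

theorem mem_slab_sub (i₀ : Fin d) (a b : ℝ) (s : ℕ) (x : Fin d → ℝ) :
    x - vec i₀ s ∈ slab i₀ a b ↔ x ∈ slab i₀ (a + s) (b + s) := by
  simp only [slab, Set.mem_ofPred_eq, Pi.sub_apply, vec, if_true]
  refine and_congr ⟨fun h => ⟨by linarith [h.1], by linarith [h.2]⟩,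
    fun h => ⟨by linarith [h.1], by linarith [h.2]⟩⟩ (forall_congr' fun i => ?_)
  refine forall_congr' fun hi => ?_
  simp [hi]

/-- the step function -/
def st (i₀ : Fin d) (t : ℝ) (x : Fin d → ℝ) : ℂ := if t ≤ x i₀ then 1 else 0

/-- the condition on the other coordinates -/
def qq (i₀ : Fin d) (x : Fin d → ℝ) : ℂ :=
  open Classical in if ∀ i, i ≠ i₀ → 0 ≤ x i ∧ x i < 1 then 1 else 0

theorem ind_slab (i₀ : Fin d) {a b : ℝ} (hab : a ≤ b) (x : Fin d → ℝ) :
    (slab i₀ a b).indicator (1 : (Fin d → ℝ) → ℂ) x =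
      qq i₀ x * (st i₀ a x - st i₀ b x) := by
  classical
  by_cases hq : ∀ i, i ≠ i₀ → 0 ≤ x i ∧ x i < 1
  · have h1 : qq i₀ x = 1 := by
      unfold qq
      rw [if_pos hq]
    rw [h1, one_mul]
    by_cases ha : a ≤ x i₀
    · by_cases hb : b ≤ x i₀
      · have : x ∉ slab i₀ a b := fun h => absurd h.1.2 (not_lt.2 hb)
        rw [Set.indicator_of_notMem this]
        simp [st, ha, hb]
      · have : x ∈ slab i₀ a b := ⟨⟨ha, not_le.1 hb⟩, hq⟩
        rw [Set.indicator_of_mem this]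
        simp [st, ha, hb]
    · have hb : ¬ b ≤ x i₀ := fun h => ha (hab.trans h)
      have : x ∉ slab i₀ a b := fun h => ha h.1.1
      rw [Set.indicator_of_notMem this]
      simp [st, ha, hb]
  · have h1 : qq i₀ x = 0 := by
      unfold qq
      rw [if_neg hq]
    have : x ∉ slab i₀ a b := fun h => hq h.2
    rw [Set.indicator_of_notMem this, h1, zero_mul]

/-- the telescoping identity -/
theorem telescope (i₀ : Fin d) (k m : ℕ) (x : Fin d → ℝ) :
    ∑ j ∈ Finset.range m,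
      ((slab i₀ 0 k).indicator (1 : (Fin d → ℝ) → ℂ) (x - vec i₀ (k * j)) -
        (slab i₀ 0 k).indicator (1 : (Fin d → ℝ) → ℂ) (x - vec i₀ (k * j + 1))) =
      (slab i₀ 0 1).indicator (1 : (Fin d → ℝ) → ℂ) x -
        (slab i₀ ((k * m : ℕ) : ℝ) ((k * m : ℕ) + 1)).indicator (1 : (Fin d → ℝ) → ℂ) x := by
  have h1 : ∀ s : ℕ, (slab i₀ 0 k).indicator (1 : (Fin d → ℝ) → ℂ) (x - vec i₀ s) =
      qq i₀ x * (st i₀ s x - st i₀ ((s + k : ℕ) : ℝ) x) := by
    intro s
    have h2 := ind_slab i₀ (show ((s : ℝ)) ≤ ((s + k : ℕ) : ℝ) by push_cast; linarith [Nat.cast_nonneg (α := ℝ) k]) x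
    rw [← h2]
    unfold Set.indicator
    have h3 : x - vec i₀ s ∈ slab i₀ 0 k ↔ x ∈ slab i₀ (s : ℝ) ((s + k : ℕ) : ℝ) := by
      rw [mem_slab_sub]
      rw [zero_add]
      push_cast
      rw [add_comm (k : ℝ) s]
    by_cases h : x ∈ slab i₀ (s : ℝ) ((s + k : ℕ) : ℝ)
    · rw [if_pos (h3.2 h), if_pos h]
      rfl
    · have h' : x - vec i₀ s ∉ slab i₀ 0 k := fun hh => h (h3.1 hh)
      rw [if_neg h', if_neg h]
  have h4 : ∀ j : ℕ, ((slab i₀ 0 k).indicator (1 : (Fin d → ℝ) → ℂ) (x - vec i₀ (k * j)) -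
        (slab i₀ 0 k).indicator (1 : (Fin d → ℝ) → ℂ) (x - vec i₀ (k * j + 1))) =
      qq i₀ x * (st i₀ ((k * j : ℕ) : ℝ) x - st i₀ ((k * j + 1 : ℕ) : ℝ) x) -
      qq i₀ x * (st i₀ ((k * (j + 1) : ℕ) : ℝ) x - st i₀ ((k * (j + 1) + 1 : ℕ) : ℝ) x) := by
    intro j
    rw [h1, h1]
    have e1 : k * j + k = k * (j + 1) := by ring
    have e2 : k * j + 1 + k = k * (j + 1) + 1 := by ring
    rw [e1, e2]
    ring
  rw [Finset.sum_congr rfl fun j _ => h4 j, Finset.sum_range_sub' (fun j => qq i₀ x *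
    (st i₀ ((k * j : ℕ) : ℝ) x - st i₀ ((k * j + 1 : ℕ) : ℝ) x)) m,
    ind_slab i₀ zero_le_one, ind_slab i₀ (by linarith : ((k * m : ℕ) : ℝ) ≤ (k * m : ℕ) + 1)]
  have e3 : ((k * 0 : ℕ) : ℝ) = 0 := by simp
  have e4 : ((k * 0 + 1 : ℕ) : ℝ) = 1 := by simp
  have e5 : ((k * m + 1 : ℕ) : ℝ) = ((k * m : ℕ) : ℝ) + 1 := by push_cast; ring
  rw [e3, e4, e5]

/-- norms of the partial sums of an orthonormal sequence -/
theorem norm_partial {E : Type*} [NormedAddCommGroup E] [InnerProductSpace ℂ E] {v : ℕ → E}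
    (hv : Orthonormal ℂ v) {k : ℕ} (hk : 2 ≤ k) (m : ℕ) :
    ‖∑ j ∈ Finset.range m, (v (k * j) - v (k * j + 1))‖ ^ 2 = 2 * m := by
  have hi : ∀ i j, inner ℂ (v i) (v j) = if i = j then (1 : ℂ) else 0 := orthonormal_iff_ite.1 hv
  induction m with
  | zero => simp
  | succ m ih =>
    rw [Finset.sum_range_succ, @norm_add_sq ℂ]
    have h1 : inner ℂ (∑ j ∈ Finset.range m, (v (k * j) - v (k * j + 1)))
        (v (k * m) - v (k * m + 1)) = 0 := by
      rw [sum_inner]
      refine Finset.sum_eq_zero fun j hj => ?_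
      have hjm : j < m := Finset.mem_range.1 hj
      have h2 : k * j + k ≤ k * m := by
        have : k * (j + 1) ≤ k * m := Nat.mul_le_mul_left k hjm
        linarith [this, Nat.mul_succ k j]
      rw [inner_sub_left, inner_sub_right, inner_sub_right, hi, hi, hi, hi, if_neg (by omega),
        if_neg (by omega), if_neg (by omega), if_neg (by omega)]
      ring
    have h3 : ‖v (k * m) - v (k * m + 1)‖ ^ 2 = 2 := by
      rw [@norm_sub_sq ℂ, hi, if_neg (by omega), hv.1, hv.1]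
      norm_num
    rw [h1, ih, h3]
    push_cast
    simp
    ring

theorem multi (i₀ : Fin d) (k : ℕ) : MultiTiles (slab i₀ 0 k)
    {x | ∃ n : Fin d → ℤ, x = (1 : Matrix (Fin d) (Fin d) ℝ).mulVec (fun i => (n i : ℝ))} k := by
  refine Filter.Eventually.of_forall fun x => ?_
  have h1 : {l ∈ {x : Fin d → ℝ | ∃ n : Fin d → ℤ,
      x = (1 : Matrix (Fin d) (Fin d) ℝ).mulVec (fun i => (n i : ℝ))} | x - l ∈ slab i₀ 0 k} =
      (fun (j : ℕ) (i : Fin d) => if i = i₀ then (⌊x i₀⌋ : ℝ) - j else (⌊x i⌋ : ℝ)) ''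
        (Finset.range k : Set ℕ) := by
    ext l
    simp only [Set.mem_ofPred_eq, Matrix.one_mulVec, Set.mem_image, Finset.coe_range, Set.mem_Iio]
    constructor
    · rintro ⟨⟨n, rfl⟩, h2, h3⟩
      simp only [Pi.sub_apply] at h2 h3
      have h4 : n i₀ ≤ ⌊x i₀⌋ := Int.le_floor.2 (by linarith [h2.1])
      have h5 : ⌊x i₀⌋ < n i₀ + k := by
        rw [Int.floor_lt]
        push_cast
        linarith [h2.2]
      refine ⟨(⌊x i₀⌋ - n i₀).toNat, by omega, ?_⟩
      funext i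
      by_cases hi : i = i₀
      · subst hi
        simp only [if_true]
        have h6 : (((⌊x i⌋ - n i).toNat : ℕ) : ℝ) = (⌊x i⌋ : ℝ) - n i := by
          have : (((⌊x i⌋ - n i).toNat : ℕ) : ℤ) = ⌊x i⌋ - n i := Int.toNat_of_nonneg (by omega)
          exact_mod_cast this
        rw [h6]
        ring
      · simp only [if_neg hi]
        have h6 := h3 i hi
        have h7 : ⌊x i⌋ = n i := by
          rw [Int.floor_eq_iff]
          exact ⟨by linarith [h6.1], by linarith [h6.2]⟩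
        rw [h7]
    · rintro ⟨j, hj, rfl⟩
      refine ⟨⟨fun i => if i = i₀ then ⌊x i₀⌋ - j else ⌊x i⌋, ?_⟩, ?_, ?_⟩
      · funext i
        by_cases hi : i = i₀
        · simp [hi]
        · simp [hi]
      · simp only [Pi.sub_apply, if_true]
        have h6 := Int.floor_le (x i₀)
        have h7 := Int.lt_floor_add_one (x i₀)
        have h8 : (j : ℝ) + 1 ≤ k := by exact_mod_cast hj
        have h9 : (0 : ℝ) ≤ j := Nat.cast_nonneg j
        constructor <;> linarith
      · intro i hi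
        simp only [Pi.sub_apply, if_neg hi]
        have h6 := Int.floor_le (x i)
        have h7 := Int.lt_floor_add_one (x i)
        constructor <;> linarith
  rw [h1, Function.Injective.encard_image]
  · rw [Set.encard_coe_eq_coe_finsetCard, Finset.card_range]
  · intro j j' hjj
    have := congrFun hjj i₀
    simp only [if_true] at this
    have : (j : ℝ) = j' := by linarith
    exact_mod_cast this

theorem ind_bound (A B : Set (Fin d → ℝ)) (x : Fin d → ℝ) :
    ‖A.indicator (1 : (Fin d → ℝ) → ℂ) x - B.indicator (1 : (Fin d → ℝ) → ℂ) x‖ ≤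
      ‖(A ∪ B).indicator (fun _ => (1 : ℝ)) x‖ := by
  by_cases h1 : x ∈ A <;> by_cases h2 : x ∈ B <;> simp [Set.indicator, h1, h2]

theorem det_one_ne : (1 : Matrix (Fin d) (Fin d) ℝ).det ≠ 0 := by
  rw [Matrix.det_one]
  exact one_ne_zero

theorem norm_char (γ x : Fin d → ℝ) :
    ‖Complex.exp (2 * Real.pi * Complex.I * ((γ ⬝ᵥ x : ℝ) : ℂ))‖ = 1 := by
  have : 2 * Real.pi * Complex.I * ((γ ⬝ᵥ x : ℝ) : ℂ) =
      ((2 * Real.pi * (γ ⬝ᵥ x) : ℝ) : ℂ) * Complex.I := by
    push_cast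
    ring
  rw [this, Complex.norm_exp_ofReal_mul_I]

/-- **Main theorem.** For all `d ≥ 1` and `k ≥ 2` there are a full rank lattice `Λ` of `ℝ^d` and a
measurable set `Ω` of positive finite measure which multi-tiles by `Λ` at level `k` such that for
no countable set `Γ` the Gabor system with window `χ_Ω` and parameters `Λ × Γ` is a Riesz basis
for `L²(ℝ^d)`. -/
theorem result (d k : ℕ) (hd : 1 ≤ d) (hk : 2 ≤ k) :
    ∃ Λ Ω : Set (Fin d → ℝ), IsFullRankLattice Λ ∧ MeasurableSet Ω ∧ 0 < volume Ω ∧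
      volume Ω < ⊤ ∧ MultiTiles Ω Λ k ∧
      ∀ Γ : Set (Fin d → ℝ), Γ.Countable →
        ¬ IsGaborRieszBasis (Ω.indicator 1) Λ Γ := by
  set i₀ : Fin d := ⟨0, hd⟩ with hi₀
  set Λ : Set (Fin d → ℝ) := {x | ∃ n : Fin d → ℤ,
    x = (1 : Matrix (Fin d) (Fin d) ℝ).mulVec (fun i => (n i : ℝ))} with hΛ
  refine ⟨Λ, slab i₀ 0 k, ⟨1, det_one_ne, rfl⟩, measurableSet_slab _ _ _, ?_, ?_, multi i₀ k, ?_⟩
  · rw [volume_slab, ENNReal.ofReal_pos]
    have : (2 : ℝ) ≤ k := by exact_mod_cast hk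
    linarith
  · rw [volume_slab]
    exact ENNReal.ofReal_lt_top
  rintro Γ - ⟨φ, hφ, b, T, hbT⟩
  have hb : ∀ p, ⇑(T (b p)) =ᵐ[volume] gabor ((slab i₀ 0 k).indicator 1) Λ Γ p := fun p => by
    rw [hbT]
    exact hφ p
  -- a frequency
  rcases isEmpty_or_nonempty Γ with hΓ | ⟨⟨γ⟩⟩
  · have hbot : (⊤ : Submodule ℂ (Lp ℂ 2 (volume : Measure (Fin d → ℝ)))) ≤ ⊥ := by
      rw [← b.dense_span]
      have : Set.range (fun i => b i) = ∅ := Set.range_eq_empty _
      rw [this, Submodule.span_empty]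
      exact Submodule.topologicalClosure_minimal _ le_rfl isClosed_singleton
    have hmem : MemLp ((slab i₀ 0 1).indicator (fun _ => (1 : ℂ))) 2
        (volume : Measure (Fin d → ℝ)) := by
      refine memLp_indicator_const 2 (measurableSet_slab _ _ _) 1 (Or.inr ?_)
      rw [volume_slab]
      exact ENNReal.ofReal_ne_top
    have h0 : hmem.toLp _ = 0 := (Submodule.mem_bot ℂ).1 (hbot Submodule.mem_top)
    have h1 : ‖hmem.toLp _‖ = 0 := by rw [h0, norm_zero]
    rw [Lp.norm_toLp, eLpNorm_indicator_const (measurableSet_slab _ _ _) two_ne_zero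
      ENNReal.ofNat_ne_top, volume_slab] at h1
    simp at h1
  · have hvec : ∀ s : ℕ, vec i₀ s ∈ Λ := by
      intro s
      refine ⟨fun i => if i = i₀ then (s : ℤ) else 0, ?_⟩
      rw [Matrix.one_mulVec]
      funext i
      unfold vec
      by_cases hi : i = i₀
      · simp [hi]
      · simp [hi]
    let σ : ℕ → Λ × Γ := fun s => (⟨vec i₀ s, hvec s⟩, γ)
    have hσ : Function.Injective σ := by
      intro s s' hss
      have h1 : vec i₀ s = vec i₀ s' := congrArg Subtype.val (congrArg Prod.fst hss)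
      have h2 := congrFun h1 i₀
      simp only [vec, if_true] at h2
      exact_mod_cast h2
    have hv : Orthonormal ℂ (fun s => b (σ s)) := b.orthonormal.comp σ hσ
    set S : ℕ → Lp ℂ 2 (volume : Measure (Fin d → ℝ)) := fun m =>
      ∑ j ∈ Finset.range m, (b (σ (k * j)) - b (σ (k * j + 1))) with hS
    have hnorm : ∀ m, ‖S m‖ ^ 2 = 2 * m := fun m => norm_partial hv hk m
    -- the images
    have himg : ∀ m, ⇑(T (S m)) =ᵐ[volume] fun x =>
        Complex.exp (2 * Real.pi * Complex.I * ((γ.1 ⬝ᵥ x : ℝ) : ℂ)) *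
          ((slab i₀ 0 1).indicator (1 : (Fin d → ℝ) → ℂ) x -
          (slab i₀ ((k * m : ℕ) : ℝ) ((k * m : ℕ) + 1)).indicator (1 : (Fin d → ℝ) → ℂ) x) := by
      intro m
      have h1 : T (S m) = ∑ j ∈ Finset.range m, (T (b (σ (k * j))) - T (b (σ (k * j + 1)))) := by
        rw [hS]
        simp only [map_sum, map_sub]
      have h2 : ⇑(∑ j ∈ Finset.range m, (T (b (σ (k * j))) - T (b (σ (k * j + 1))))) =ᵐ[volume]
          fun x => ∑ j ∈ Finset.range m, (gabor ((slab i₀ 0 k).indicator 1) Λ Γ (σ (k * j)) x -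
            gabor ((slab i₀ 0 k).indicator 1) Λ Γ (σ (k * j + 1)) x) := by
        induction m with
        | zero =>
          simp only [Finset.range_zero, Finset.sum_empty]
          exact Lp.coeFn_zero ℂ 2 _
        | succ m ih =>
          have ih' := ih (by rw [hS]; simp only [map_sum, map_sub])
          rw [Finset.sum_range_succ]
          filter_upwards [Lp.coeFn_add (∑ j ∈ Finset.range m, (T (b (σ (k * j))) -
            T (b (σ (k * j + 1))))) (T (b (σ (k * m))) - T (b (σ (k * m + 1)))), ih',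
            Lp.coeFn_sub (T (b (σ (k * m)))) (T (b (σ (k * m + 1)))), hb (σ (k * m)),
            hb (σ (k * m + 1))] with x a1 a2 a3 a4 a5
          rw [Finset.sum_range_succ, a1, Pi.add_apply, a2, a3, Pi.sub_apply, a4, a5]
      rw [h1]
      refine h2.trans (Filter.Eventually.of_forall fun x => ?_)
      simp only
      rw [← telescope i₀ k m x, Finset.mul_sum]
      refine Finset.sum_congr rfl fun j _ => ?_
      simp only [gabor, σ]
      ring
    have hbound : ∀ m, ‖T (S m)‖ ≤ 2 := by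
      intro m
      rw [Lp.norm_def, eLpNorm_congr_ae (himg m)]
      have hle : eLpNorm (fun x => Complex.exp (2 * Real.pi * Complex.I * ((γ.1 ⬝ᵥ x : ℝ) : ℂ)) *
          ((slab i₀ 0 1).indicator (1 : (Fin d → ℝ) → ℂ) x -
          (slab i₀ ((k * m : ℕ) : ℝ) ((k * m : ℕ) + 1)).indicator (1 : (Fin d → ℝ) → ℂ) x)) 2
          (volume : Measure (Fin d → ℝ)) ≤
          eLpNorm ((slab i₀ 0 1 ∪ slab i₀ ((k * m : ℕ) : ℝ) ((k * m : ℕ) + 1)).indicator
            (fun _ => (1 : ℝ))) 2 (volume : Measure (Fin d → ℝ)) := by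
        refine eLpNorm_mono fun x => ?_
        rw [norm_mul, norm_char, one_mul]
        exact ind_bound _ _ x
      have hle2 : eLpNorm ((slab i₀ 0 1 ∪ slab i₀ ((k * m : ℕ) : ℝ) ((k * m : ℕ) + 1)).indicator
            (fun _ => (1 : ℝ))) 2 (volume : Measure (Fin d → ℝ)) ≤ 2 := by
        rw [eLpNorm_indicator_const ((measurableSet_slab _ _ _).union (measurableSet_slab _ _ _))
          two_ne_zero ENNReal.ofNat_ne_top]
        have h3 : volume (slab i₀ 0 1 ∪ slab i₀ ((k * m : ℕ) : ℝ) ((k * m : ℕ) + 1)) ≤ 2 := by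
          refine (measure_union_le _ _).trans ?_
          rw [volume_slab, volume_slab, sub_zero, add_sub_cancel_left, ENNReal.ofReal_one,
            one_add_one_eq_two]
        have h4 : ((2 : ENNReal)) ^ (1 / (2 : ENNReal).toReal) ≤ 2 := by
          calc ((2 : ENNReal)) ^ (1 / (2 : ENNReal).toReal) ≤ (2 : ENNReal) ^ (1 : ℝ) := by
                refine ENNReal.rpow_le_rpow_of_exponent_le (by norm_num) ?_
                simp
                norm_num
            _ = 2 := ENNReal.rpow_one _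
        calc _ ≤ ‖(1 : ℝ)‖ₑ * (2 : ENNReal) ^ (1 / (2 : ENNReal).toReal) := by
              gcongr
          _ ≤ 2 := by
              simpa using h4
      calc _ ≤ (2 : ENNReal).toReal := ENNReal.toReal_mono ENNReal.ofNat_ne_top (hle.trans hle2)
        _ = 2 := by simp
    -- the contradiction
    set C := ‖(T.symm : Lp ℂ 2 (volume : Measure (Fin d → ℝ)) →L[ℂ]
      Lp ℂ 2 (volume : Measure (Fin d → ℝ)))‖ with hC
    have hC0 : 0 ≤ C := norm_nonneg _
    have hS2 : ∀ m, ‖S m‖ ≤ C * 2 := by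
      intro m
      have h1 : S m = (T.symm : Lp ℂ 2 (volume : Measure (Fin d → ℝ)) →L[ℂ]
        Lp ℂ 2 (volume : Measure (Fin d → ℝ))) (T (S m)) := (T.symm_apply_apply (S m)).symm
      rw [h1]
      exact (ContinuousLinearMap.le_opNorm _ _).trans (mul_le_mul_of_nonneg_left (hbound m) hC0)
    obtain ⟨m, hm⟩ := exists_nat_gt ((C * 2) ^ 2)
    have h1 := hnorm m
    have h2 : ‖S m‖ ^ 2 ≤ (C * 2) ^ 2 := pow_le_pow_left₀ (norm_nonneg _) (hS2 m) 2
    have h3 : (0 : ℝ) ≤ m := Nat.cast_nonneg m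
    linarith

end

end Pool.Agent.Results.MP_9d6809_an.NoRieszBasis
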